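import Pool.Agent.Lib.MP_d3d358_ag.G.Main

open Pool.Agent.Lib.MP_d3d358_ag.G Pool.Agent.Lib.MP_d3d358_ag.AS
open Pool.Agent.Lib.MP_9ff3e7_ag.F Pool.Agent.Lib.MP_cd184e_ag.B

theorem Pool.Agent.Results.MP_d3d358_ag.Kummer.result :
    ∃ (S S' : Type) (_ : CommRing S) (_ : CommRing S') (_ : IsDomain S) (_ : IsDomain S')
      (_ : Algebra ℂ S) (_ : Algebra ℂ S') (𝒜 : ℕ → Submodule ℂ S) (ℬ : ℕ → Submodule ℂ S')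
      (_ : GradedAlgebra 𝒜) (_ : GradedAlgebra ℬ) (σ : Form (Fn 𝒜)) (τ : Form (Fn ℬ)),
      HK 𝒜 σ ∧ HK ℬ τ ∧ DerEq (strMap 𝒜) (strMap ℬ) ∧
      ¬∃ g : ∀ k, H (Cx 𝒜) ℚ k ≃ₗ[ℚ] H (Cx ℬ) ℚ k, HodgeFrob 8 (Period σ) (Period τ) g :=
  main
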